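import Pool.Agent.Lib.MP_a60258_hol.Defs

/-!
# Module LIM: passage to the limit
-/

open MeasureTheory ProbabilityTheory MvPolynomial Filter Topology

namespace Pool.Agent.Hol.H19

open A602

theorem lim : LIM := by
  intro p hp c0 hc0 Q hQ hk4 hk64 X hX happ hne
  -- the approximations
  obtain ⟨K, hK⟩ : ∃ K : ℝ, K = 125 ^ p := ⟨_, rfl⟩
  have h15 : (1 : ℝ) ≤ K := by rw [hK]; exact one_le_pow₀ (by norm_num)
  have hK0 : 0 < K := by linarith
  set δ : ℕ → ℝ := fun N => 1 / (8 * K * 4 ^ N) with hδ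
  have hδ0 : ∀ N, 0 < δ N := fun N => by positivity
  have hδanti : ∀ N n, N ≤ n → δ n ≤ δ N := by
    intro N n hn
    refine one_div_le_one_div_of_le (by positivity) ?_
    gcongr
    norm_num
  have hδlim : Tendsto δ atTop (𝓝 0) := by
    have h1 : Tendsto (fun N : ℕ => (1 / (8 * K) : ℝ) * (1 / 4) ^ N) atTop (𝓝 0) := by
      have := (tendsto_pow_atTop_nhds_zero_of_lt_one (r := (1 / 4 : ℝ)) (by norm_num)
        (by norm_num)).const_mul (1 / (8 * K) : ℝ)
      simpa using this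
    refine h1.congr fun N => ?_
    rw [hδ]
    simp only [one_div, mul_inv, inv_pow]
  choose P hPQ hsa using fun N => happ (δ N) (hδ0 N)
  choose T hT using fun N => hQ (P N) (hPQ N)
  have hPT : ∀ N, Cha (T N) p (P N) := hT
  set u : ℕ → (ℕ → ℝ) → ℝ := fun N ω => eval ω (P N) with hu
  have hXu : ∀ N, ∫ ω, (X ω - u N ω) ^ 2 ∂γ < δ N := by
    intro N
    exact hsa N
  have c2 : ((2 : ℕ) : ENNReal) = 2 := by norm_num
  have c4 : ((4 : ℕ) : ENNReal) = 4 := by norm_num
  have c6 : ((6 : ℕ) : ENNReal) = 6 := by norm_num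
  have hu2 : ∀ N, MemLp (u N) 2 γ := fun N => by
    have := memLp_eval (P N) (q := 2) (by decide) (by norm_num); rwa [c2] at this
  have hu4 : ∀ N, MemLp (u N) 4 γ := fun N => by
    have := memLp_eval (P N) (q := 4) (by decide) (by norm_num); rwa [c4] at this
  have hu6 : ∀ N, MemLp (u N) 6 γ := fun N => by
    have := memLp_eval (P N) (q := 6) (by decide) (by norm_num); rwa [c6] at this
  have hint : ∀ N, Integrable (fun ω => (X ω - u N ω) ^ 2) γ := fun N => by
    have := integrable_pow_of_memLp (q := 2) (by decide) (by norm_num)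
      (by rw [c2]; exact hX.sub (hu2 N))
    simpa using this
  -- second moments of differences
  have hdiff : ∀ n m, E ((P n - P m) ^ 2) ≤ 2 * δ n + 2 * δ m := by
    intro n m
    rw [← integral_pow_eval]
    calc ∫ ω, (eval ω (P n - P m)) ^ 2 ∂γ
        ≤ ∫ ω, (2 * (X ω - u n ω) ^ 2 + 2 * (X ω - u m ω) ^ 2) ∂γ := by
          refine integral_mono ?_ (((hint n).const_mul 2).add ((hint m).const_mul 2)) fun ω => ?_
          · refine (integrable_eval ((P n - P m) ^ 2)).congr (Eventually.of_forall fun ω => ?_)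
            simp
          · simp only [map_sub]
            change (u n ω - u m ω) ^ 2 ≤ _
            nlinarith [sq_nonneg ((X ω - u n ω) + (X ω - u m ω))]
      _ = 2 * (∫ ω, (X ω - u n ω) ^ 2 ∂γ) + 2 * ∫ ω, (X ω - u m ω) ^ 2 ∂γ := by
          rw [integral_add ((hint n).const_mul 2) ((hint m).const_mul 2), integral_const_mul,
            integral_const_mul]
      _ ≤ _ := by have := hXu n; have := hXu m; linarith
  have hE2 : ∀ Q : R, 0 ≤ E (Q ^ 2) := fun Q => E_nonneg fun ω => by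
    rw [map_pow]; exact sq_nonneg _
  -- Cauchy in L⁶
  have h6 : ∀ N n m : ℕ, N ≤ n → N ≤ m →
      ∫ ω, (u n ω - u m ω) ^ 6 ∂γ < ((1 / 2 : ℝ) ^ N) ^ 6 := by
    intro N n m hn hm
    have e1 : ∫ ω, (u n ω - u m ω) ^ 6 ∂γ = E ((P n - P m) ^ 6) := by
      rw [← integral_pow_eval]
      simp only [map_sub, hu]
    rw [e1]
    have h1 := (((hPT n).mono (Finset.subset_union_left (s₂ := T m))).sub
      ((hPT m).mono (Finset.subset_union_right (s₁ := T n)))).six_le
    rw [← hK] at h1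
    have h2 : E ((P n - P m) ^ 2) ≤ 4 * δ N := by
      have := hdiff n m
      have := hδanti N n hn
      have := hδanti N m hm
      linarith
    have h3 : E ((P n - P m) ^ 2) ^ 3 ≤ (4 * δ N) ^ 3 := pow_le_pow_left₀ (hE2 _) h2 3
    have h4 : K * (4 * δ N) ^ 3 < ((1 / 2 : ℝ) ^ N) ^ 6 := by
      have e2 : ((1 / 2 : ℝ) ^ N) ^ 6 = 1 / (4 ^ N) ^ 3 := by
        rw [one_div, inv_pow, inv_pow, one_div]
        congr 1
        rw [← pow_mul, ← pow_mul, show (4 : ℝ) = 2 ^ 2 by norm_num, ← pow_mul]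
        congr 1; ring
      have e3 : K * (4 * δ N) ^ 3 = 1 / (8 * K ^ 2 * (4 ^ N) ^ 3) := by
        rw [hδ]
        field_simp
        norm_num
      rw [e2, e3]
      refine one_div_lt_one_div_of_lt (by positivity) ?_
      have h5 : (0 : ℝ) < (4 ^ N) ^ 3 := by positivity
      have h7 : (1 : ℝ) ≤ K ^ 2 := one_le_pow₀ h15
      have h8 : (1 : ℝ) < 8 * K ^ 2 := by linarith
      have h9 := mul_lt_mul_of_pos_right h8 h5
      linarith
    calc E ((P n - P m) ^ 6) ≤ K * E ((P n - P m) ^ 2) ^ 3 := h1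
      _ ≤ K * (4 * δ N) ^ 3 := mul_le_mul_of_nonneg_left h3 (by positivity)
      _ < _ := h4
  have hlim2 : Tendsto (fun N => ∫ ω, (X ω - u N ω) ^ 2 ∂γ) atTop (𝓝 0) :=
    squeeze_zero (fun N => integral_nonneg fun ω => sq_nonneg _) (fun N => (hXu N).le) hδlim
  obtain ⟨hX6, hL6⟩ := exists_L6 hX hu6 hlim2 h6
  -- convergence of the moments
  have hX4 : MemLp X 4 γ := hX6.mono_exponent (by norm_num)
  have hL4 : Tendsto (fun N => eLpNorm (u N - X) 4 γ) atTop (𝓝 0) :=
    tendsto_of_tendsto_of_tendsto_of_le_of_le tendsto_const_nhds hL6 (fun _ => bot_le)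
      fun N => eLpNorm_le_eLpNorm_of_exponent_le (by norm_num) ((hu6 N).1.sub hX.1)
  have hL2 : Tendsto (fun N => eLpNorm (u N - X) 2 γ) atTop (𝓝 0) :=
    tendsto_of_tendsto_of_tendsto_of_le_of_le tendsto_const_nhds hL6 (fun _ => bot_le)
      fun N => eLpNorm_le_eLpNorm_of_exponent_le (by norm_num) ((hu6 N).1.sub hX.1)
  have m2 : Tendsto (fun N => E (P N ^ 2)) atTop (𝓝 (∫ ω, X ω ^ 2 ∂γ)) := by
    have := tendsto_moment (q := 2) (by decide) (by norm_num) (by simpa only [c2] using hu2)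
      (by rw [c2]; exact hX) (by simpa only [c2] using hL2)
    refine this.congr fun N => integral_pow_eval _ _
  have m4 : Tendsto (fun N => E (P N ^ 4)) atTop (𝓝 (∫ ω, X ω ^ 4 ∂γ)) := by
    have := tendsto_moment (q := 4) (by decide) (by norm_num) (by simpa only [c4] using hu4)
      (by rw [c4]; exact hX4) (by simpa only [c4] using hL4)
    refine this.congr fun N => integral_pow_eval _ _
  have m6 : Tendsto (fun N => E (P N ^ 6)) atTop (𝓝 (∫ ω, X ω ^ 6 ∂γ)) := by
    have := tendsto_moment (q := 6) (by decide) (by norm_num) (by simpa only [c6] using hu6)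
      (by rw [c6]; exact hX6) (by simpa only [c6] using hL6)
    refine this.congr fun N => integral_pow_eval _ _
  -- third moments
  have iX4 : Integrable (fun ω => X ω ^ 4) γ :=
    integrable_pow_of_memLp (q := 4) (by decide) (by norm_num) (by rw [c4]; exact hX4)
  have iX2 : Integrable (fun ω => X ω ^ 2) γ :=
    integrable_pow_of_memLp (q := 2) (by decide) (by norm_num) (by rw [c2]; exact hX)
  have iX3 : Integrable (fun ω => X ω ^ 3) γ := by
    refine Integrable.mono' (iX4.add iX2) ((hX.1.pow 3)) (Eventually.of_forall fun ω => ?_)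
    simp only [Pi.add_apply, Real.norm_eq_abs]
    rw [abs_le]
    constructor
    · nlinarith [sq_nonneg (X ω ^ 2 + X ω), sq_nonneg (X ω ^ 2 - X ω), sq_nonneg (X ω)]
    · nlinarith [sq_nonneg (X ω ^ 2 + X ω), sq_nonneg (X ω ^ 2 - X ω), sq_nonneg (X ω)]
  have m3 : Tendsto (fun N => E (P N ^ 3)) atTop (𝓝 (∫ ω, X ω ^ 3 ∂γ)) := by
    have h1 : ∀ N, |E (P N ^ 3) - ∫ ω, X ω ^ 3 ∂γ| ≤ √(δ N)
        + 3 * √(δ N) * ((∫ ω, X ω ^ 4 ∂γ) + E (P N ^ 4)) := by
      intro N
      have iu3 : Integrable (fun ω => u N ω ^ 3) γ := by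
        refine (integrable_eval (P N ^ 3)).congr (Eventually.of_forall fun ω => ?_)
        simp [hu]
      have iu4 : Integrable (fun ω => u N ω ^ 4) γ := by
        refine (integrable_eval (P N ^ 4)).congr (Eventually.of_forall fun ω => ?_)
        simp [hu]
      have hs0 : 0 < √(δ N) := Real.sqrt_pos.mpr (hδ0 N)
      have e1 : E (P N ^ 3) - ∫ ω, X ω ^ 3 ∂γ = -∫ ω, (X ω ^ 3 - u N ω ^ 3) ∂γ := by
        rw [integral_sub iX3 iu3]
        have : E (P N ^ 3) = ∫ ω, u N ω ^ 3 ∂γ := (integral_pow_eval _ _).symm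
        rw [this]; ring
      have e2 : E (P N ^ 4) = ∫ ω, u N ω ^ 4 ∂γ := (integral_pow_eval _ _).symm
      have i4 : Integrable (fun ω => X ω ^ 4 + u N ω ^ 4) γ := iX4.add iu4
      rw [e1, e2, abs_neg]
      calc |∫ ω, (X ω ^ 3 - u N ω ^ 3) ∂γ| ≤ ∫ ω, |X ω ^ 3 - u N ω ^ 3| ∂γ :=
            abs_integral_le_integral_abs
        _ ≤ ∫ ω, ((√(δ N))⁻¹ * (X ω - u N ω) ^ 2 + 3 * √(δ N) * (X ω ^ 4 + u N ω ^ 4)) ∂γ := by
            refine integral_mono (iX3.sub iu3).abs (((hint N).const_mul _).add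
              (i4.const_mul _)) fun ω => ?_
            exact abs_cube_sub_le (X ω) (u N ω) hs0
        _ = (√(δ N))⁻¹ * (∫ ω, (X ω - u N ω) ^ 2 ∂γ)
              + 3 * √(δ N) * ((∫ ω, X ω ^ 4 ∂γ) + ∫ ω, u N ω ^ 4 ∂γ) := by
            rw [integral_add ((hint N).const_mul _) (i4.const_mul _),
              integral_const_mul, integral_const_mul, integral_add iX4 iu4]
        _ ≤ _ := by
            have h2 : (√(δ N))⁻¹ * (∫ ω, (X ω - u N ω) ^ 2 ∂γ) ≤ √(δ N) := by
              rw [inv_mul_le_iff₀ hs0, Real.mul_self_sqrt (hδ0 N).le]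
              exact (hXu N).le
            linarith
    have hsl : Tendsto (fun N => √(δ N)) atTop (𝓝 0) := by
      have := hδlim.sqrt
      rwa [Real.sqrt_zero] at this
    have h2 : Tendsto (fun N => √(δ N)
        + 3 * √(δ N) * ((∫ ω, X ω ^ 4 ∂γ) + E (P N ^ 4))) atTop (𝓝 0) := by
      have := hsl.add ((hsl.const_mul 3).mul (m4.const_add (∫ ω, X ω ^ 4 ∂γ)))
      simpa using this
    rw [tendsto_iff_norm_sub_tendsto_zero]
    exact squeeze_zero (fun N => norm_nonneg _) (fun N => by rw [Real.norm_eq_abs]; exact h1 N) h2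
  -- the cumulants converge
  have hk : Tendsto (fun N => k6 (P N)) atTop (𝓝 (kap6 X)) := by
    unfold k6 kap6
    exact ((m6.sub ((m2.const_mul 15).mul m4)).sub ((m3.pow 2).const_mul 10)).add
      ((m2.pow 3).const_mul 30)
  have hk4' : Tendsto (fun N => k4 (P N)) atTop
      (𝓝 ((∫ ω, X ω ^ 4 ∂γ) - 3 * (∫ ω, X ω ^ 2 ∂γ) ^ 2)) := by
    unfold k4
    exact m4.sub ((m2.pow 2).const_mul 3)
  refine ⟨?_, ?_⟩
  swap
  · exact le_of_tendsto_of_tendsto' ((hk4'.pow 2).const_mul 10) ((hk.mul m2).const_mul 3)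
      fun N => hk64 _ (hPQ N)
  by_contra hneg
  push Not at hneg
  -- the influences tend to zero
  have hinf : ∀ i, Tendsto (fun N => E (pderiv i (P N) ^ 2)) atTop (𝓝 0) := by
    intro i
    have h1 : ∀ N, c0 * E (pderiv i (P N) ^ 2) ^ 2 ≤ k4 (P N) := fun N => hk4 _ (hPQ N) i
    have h2 : Tendsto (fun N => E (pderiv i (P N) ^ 2) ^ 2) atTop (𝓝 0) := by
      have h3 := hk4'.div_const c0
      have h4 : (∫ ω, X ω ^ 4 ∂γ) - 3 * (∫ ω, X ω ^ 2 ∂γ) ^ 2 = 0 := by
        refine le_antisymm hneg (ge_of_tendsto' hk4' fun N => ?_)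
        have h6 := h1 N
        have h7 : 0 ≤ c0 * E (pderiv i (P N) ^ 2) ^ 2 := by positivity
        linarith
      rw [h4, zero_div] at h3
      refine squeeze_zero (fun N => sq_nonneg _) (fun N => ?_) h3
      have := h1 N
      rw [le_div_iff₀ hc0]
      linarith
    have h5 := h2.sqrt
    rw [Real.sqrt_zero] at h5
    refine h5.congr fun N => ?_
    exact Real.sqrt_sq (hE2 _)
  -- covariances with a fixed approximation tend to zero
  have hp0 : (0 : ℝ) < (p : ℝ) := by exact_mod_cast hp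
  have hcov : ∀ m, Tendsto (fun N => E (P m * P N)) atTop (𝓝 0) := by
    intro m
    have h0 : Tendsto (fun N => (p : ℝ) * E (P m * P N)) atTop (𝓝 0) := by
      simp only [(hPT m).ibp]
      rw [show (0 : ℝ) = ∑ i ∈ T m, (0 : ℝ) by simp]
      refine tendsto_finsetSum _ fun i hi => ?_
      have h1 := (hinf i).const_mul (E (pderiv i (P m) ^ 2))
      rw [mul_zero] at h1
      have h2 := h1.sqrt
      rw [Real.sqrt_zero] at h2
      refine squeeze_zero_norm (fun N => ?_) h2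
      rw [Real.norm_eq_abs]
      exact Real.abs_le_sqrt (E_cauchy _ _)
    have h3 := h0.const_mul ((p : ℝ)⁻¹)
    rw [mul_zero] at h3
    refine h3.congr fun N => ?_
    rw [← mul_assoc, inv_mul_cancel₀ hp0.ne', one_mul]
  -- conclusion
  have hσ : ∀ m, ∫ ω, X ω ^ 2 ∂γ ≤ 2 * δ m := by
    intro m
    have h1 : Tendsto (fun N => E ((P N - P m) ^ 2)) atTop
        (𝓝 ((∫ ω, X ω ^ 2 ∂γ) - 2 * 0 + E (P m ^ 2))) := by
      have h2 := (m2.sub ((hcov m).const_mul 2)).add_const (E (P m ^ 2))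
      refine h2.congr fun N => ?_
      have e : (P N - P m) ^ 2 = P N ^ 2 - (2 : ℝ) • (P m * P N) + P m ^ 2 := by
        rw [Algebra.smul_def, map_ofNat]; ring
      rw [e, map_add, map_sub, map_smul, smul_eq_mul]
    have h3 : Tendsto (fun N => 2 * δ N + 2 * δ m) atTop (𝓝 (2 * 0 + 2 * δ m)) :=
      (hδlim.const_mul 2).add_const _
    have h4 := le_of_tendsto_of_tendsto' h1 h3 fun N => hdiff N m
    have := hE2 (P m)
    linarith
  have hσ0 : ∫ ω, X ω ^ 2 ∂γ ≤ 0 := by
    have h1 : Tendsto (fun m => 2 * δ m) atTop (𝓝 (2 * 0)) := hδlim.const_mul 2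
    rw [mul_zero] at h1
    exact ge_of_tendsto' h1 hσ
  refine hne ?_
  have h1 : ∫ ω, X ω ^ 2 ∂γ = 0 := le_antisymm hσ0 (integral_nonneg fun ω => sq_nonneg _)
  rw [integral_eq_zero_iff_of_nonneg (fun ω => sq_nonneg _) iX2] at h1
  filter_upwards [h1] with ω hω
  simpa using hω

end Pool.Agent.Hol.H19
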